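import Pool.Agent.H97.XU.SZA
import Pool.Agent.H4.TP.LIN
import Pool.Agent.H4.TE.NEG

/-! # [H4 XV CBL] The size of the coefficients after the linear substitution

`P` of total degree `≤ n`, coefficients at most `H`: `L1 P ≤ (n+1)² H`; `lin` is `aeval` with linear forms of `L1`
norm at most `2 (n² + 1)`: `L1_aeval`. `(n+1)² (2 n² + 2)^n ≤ 2^(4 n² - 1)`. -/

namespace Pool.Agent.H4.XV

open Finset Polynomial Pool.Agent.H37.TE Pool.Agent.H98.TE Pool.Agent.H4.TE Pool.Agent.H4.TP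
  Pool.Agent.H97.XU

private theorem cbl_num {n : ℕ} (hn : 3 ≤ n) :
    (n + 1) ^ 2 * (2 * (n ^ 2 + 1)) ^ n ≤ 2 ^ (4 * n ^ 2 - 1) := by
  have h1 : n + 1 ≤ 2 ^ n := Nat.lt_two_pow_self
  have h2 : 2 * (n ^ 2 + 1) ≤ 2 ^ (2 * n + 1) := by
    calc 2 * (n ^ 2 + 1) ≤ 2 * (n + 1) ^ 2 := by nlinarith
      _ ≤ 2 * (2 ^ n) ^ 2 := Nat.mul_le_mul_left _ (Nat.pow_le_pow_left h1 2)
      _ = 2 ^ (2 * n + 1) := by rw [← pow_mul, pow_succ, mul_comm n 2, mul_comm]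
  calc (n + 1) ^ 2 * (2 * (n ^ 2 + 1)) ^ n ≤ (2 ^ n) ^ 2 * (2 ^ (2 * n + 1)) ^ n :=
        Nat.mul_le_mul (Nat.pow_le_pow_left h1 2) (Nat.pow_le_pow_left h2 n)
    _ = 2 ^ (n * 2 + (2 * n + 1) * n) := by rw [← pow_mul, ← pow_mul, ← pow_add]
    _ ≤ 2 ^ (4 * n ^ 2 - 1) := by
        refine Nat.pow_le_pow_right (by norm_num) ?_
        have h3 : n * 2 + (2 * n + 1) * n + 1 ≤ 4 * n ^ 2 := by nlinarith
        omega

private theorem cbl_L1 {n H : ℕ} {P : MvPolynomial (Fin 2) ℤ} (hP : P.totalDegree ≤ n)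
    (hH : ∀ e, |P.coeff e| ≤ (H : ℤ)) : L1 P ≤ (n + 1) ^ 2 * H := by
  classical
  obtain ⟨t, ht⟩ : ∃ t : Finset (Fin 2 →₀ ℕ), t = ((range (n + 1)) ×ˢ (range (n + 1))).image
      (fun p => Finsupp.single 0 p.1 + Finsupp.single 1 p.2) := ⟨_, rfl⟩
  have hs : P.support ⊆ t := by
    intro e he
    have h1 := (MvPolynomial.le_totalDegree he).trans hP
    rw [Finsupp.sum_fintype _ _ (fun _ => rfl), Fin.sum_univ_two] at h1
    rw [ht, mem_image]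
    refine ⟨(e 0, e 1), ?_, ?_⟩
    · rw [mem_product, mem_range, mem_range]
      constructor
      · show e 0 < n + 1
        omega
      · show e 1 < n + 1
        omega
    · ext i
      fin_cases i
      · simp
      · simp
  rw [L1_eq P hs]
  have h2 : t.card ≤ (n + 1) ^ 2 := by
    rw [ht]
    refine card_image_le.trans ?_
    rw [card_product, card_range, sq]
  calc ∑ e ∈ t, (P.coeff e).natAbs ≤ ∑ _e ∈ t, H := sum_le_sum fun e _ => by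
        have := hH e
        rw [Int.abs_eq_natAbs] at this
        exact_mod_cast this
    _ = t.card * H := by rw [sum_const, smul_eq_mul]
    _ ≤ (n + 1) ^ 2 * H := Nat.mul_le_mul_right _ h2

theorem lin_coeff_le {n H : ℕ} (hn : 3 ≤ n) (hH : 2 ≤ H) {α β γ δ : ℤ}
    (hα : |α| ≤ (n : ℤ) ^ 2 + 1) (hβ : |β| ≤ (n : ℤ) ^ 2 + 1) (hγ : |γ| ≤ (n : ℤ) ^ 2 + 1)
    (hδ : |δ| ≤ (n : ℤ) ^ 2 + 1) {P : MvPolynomial (Fin 2) ℤ} (hP : P.totalDegree ≤ n)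
    (hPH : ∀ e, |P.coeff e| ≤ (H : ℤ)) (e : Fin 2 →₀ ℕ) :
    |(lin α β γ δ P).coeff e| ≤ ((H ^ (4 * n ^ 2) : ℕ) : ℤ) := by
  have hl : ∀ u v : ℤ, |u| ≤ (n : ℤ) ^ 2 + 1 → |v| ≤ (n : ℤ) ^ 2 + 1 →
      L1 (MvPolynomial.C (u : ℤ) * MvPolynomial.X 0 +
        MvPolynomial.C (v : ℤ) * MvPolynomial.X 1 : MvPolynomial (Fin 2) ℤ) ≤ 2 * (n ^ 2 + 1) := by
    intro u v hu hv
    rw [Int.abs_eq_natAbs] at hu hv
    have hu' : u.natAbs ≤ n ^ 2 + 1 := by exact_mod_cast hu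
    have hv' : v.natAbs ≤ n ^ 2 + 1 := by exact_mod_cast hv
    refine (L1_add _ _).trans ?_
    have h1 := L1_mul (MvPolynomial.C u : MvPolynomial (Fin 2) ℤ) (MvPolynomial.X 0)
    have h2 := L1_mul (MvPolynomial.C v : MvPolynomial (Fin 2) ℤ) (MvPolynomial.X 1)
    rw [L1_C, L1_X, mul_one] at h1 h2
    omega
  have h1 : L1 (lin α β γ δ P) ≤ L1 P * (2 * (n ^ 2 + 1)) ^ P.totalDegree := by
    unfold lin
    refine L1_aeval _ (by omega) ?_ P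
    intro i
    fin_cases i
    · simpa using hl α β hα hβ
    · simpa using hl γ δ hγ hδ
  have h2 : L1 (lin α β γ δ P) ≤ H ^ (4 * n ^ 2) := by
    calc L1 (lin α β γ δ P) ≤ L1 P * (2 * (n ^ 2 + 1)) ^ P.totalDegree := h1
      _ ≤ ((n + 1) ^ 2 * H) * (2 * (n ^ 2 + 1)) ^ n :=
          Nat.mul_le_mul (cbl_L1 hP hPH) (Nat.pow_le_pow_right (by omega) hP)
      _ = ((n + 1) ^ 2 * (2 * (n ^ 2 + 1)) ^ n) * H := by ring
      _ ≤ 2 ^ (4 * n ^ 2 - 1) * H := Nat.mul_le_mul_right _ (cbl_num hn)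
      _ ≤ H ^ (4 * n ^ 2 - 1) * H := Nat.mul_le_mul_right _ (Nat.pow_le_pow_left hH _)
      _ = H ^ (4 * n ^ 2) := by
          rw [← pow_succ]
          congr 1
          have : 1 ≤ 4 * n ^ 2 := by nlinarith
          omega
  rw [Int.abs_eq_natAbs]
  exact_mod_cast (coeff_le_L1 _ e).trans h2

/-- `CB` for the family after the substitution -/
theorem cb_lin {n m H : ℕ} (hn : 3 ≤ n) (hH : 2 ≤ H) {α β γ δ : ℤ}
    (hα : |α| ≤ (n : ℤ) ^ 2 + 1) (hβ : |β| ≤ (n : ℤ) ^ 2 + 1) (hγ : |γ| ≤ (n : ℤ) ^ 2 + 1)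
    (hδ : |δ| ≤ (n : ℤ) ^ 2 + 1) {F : ℕ → MvPolynomial (Fin 2) ℤ}
    (hF : ∀ j ≤ m, (F j).totalDegree ≤ n) (hFH : ∀ j ≤ m, ∀ e, |(F j).coeff e| ≤ (H : ℤ)) :
    CB (H ^ (4 * n ^ 2)) (F3 m (fun j => lin α β γ δ (F j))) := by
  intro j a b
  rw [cf3, coeff_f3, finsetSum_coeff]
  by_cases hj : j ≤ m
  · rw [sum_eq_single j]
    · rw [coeff_C_mul, coeff_X_pow, if_pos rfl, mul_one]
      exact lin_coeff_le hn hH hα hβ hγ hδ (hF j hj) (hFH j hj) _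
    · intro i _ hi
      rw [coeff_C_mul, coeff_X_pow, if_neg (Ne.symm hi), mul_zero]
    · intro h
      exact absurd (mem_range.2 (by omega)) h
  · rw [sum_eq_zero, abs_zero]
    · positivity
    · intro i hi
      rw [mem_range] at hi
      rw [coeff_C_mul, coeff_X_pow, if_neg (by omega), mul_zero]

theorem cb_ng {B : ℕ} {F : ℤ[X][X][X]} (h : CB B F) : CB B (ngF F) := by
  intro j a b
  rw [cf3_ng, abs_mul, abs_pow, abs_neg, abs_one, one_pow, one_mul]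
  exact h j a b

end Pool.Agent.H4.XV
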