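import Pool.Agent.H4.XV.MVU
import Pool.Agent.H97.XU.AUZ

/-! # [H4 XV XUF] The explicit theorem with the exponent `2^((3 m n²)!)` -/

namespace Pool.Agent.H4.XV

open Finset Polynomial Pool.Agent.H37.TE Pool.Agent.H98.TE Pool.Agent.H4.TE Pool.Agent.H4.TP
  Pool.Agent.H97.XU Pool.Agent.H4.SX Pool.Agent.H37.XP

theorem allZ_u {n m : ℕ} (hn : 3 ≤ n) (hm : 1 ≤ m) : AllZ n m (TN n m 1 ^ kU) := by
  intro B hB F h hF hR hc a ha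
  exact all_z hn hm hB h hF hR hc a ha

theorem num_u {n m : ℕ} (hn : 3 ≤ n) (hm : 1 ≤ m) :
    4 * n ^ 2 * TN n m 1 ^ kU + 1 ≤ 2 ^ (3 * m * n ^ 2).factorial := by
  obtain ⟨T, hT⟩ : ∃ T, T = TN n m 1 := ⟨_, rfl⟩
  obtain ⟨k, hk⟩ : ∃ k, k = kU := ⟨_, rfl⟩
  have h1 : 4 * n ^ 2 + 1 ≤ T := by
    have h2 := EN_ge (d := n) (m := m) (v := 1) hn hm le_rfl
    have h3 : EN n m 1 < T := by
      rw [hT]
      unfold TN
      exact Nat.lt_two_pow_self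
    have h4 : n ≤ m * n.factorial := (Nat.self_le_factorial n).trans
      (Nat.le_mul_of_pos_left _ hm)
    have h5 : n ^ 2 ≤ (m * n.factorial) ^ 2 := Nat.pow_le_pow_left h4 2
    have h6 : 1 ≤ n ^ 2 := Nat.one_le_pow _ _ (by omega)
    omega
  have hT1 : 1 ≤ T := by omega
  have h2 : T ^ (k + 1) ≤ CE n m 1 := by
    rw [hT]
    refine CE_ge hn hm le_rfl ?_
    rw [hk]
    unfold kU
    norm_num
  have h3 : CE n m 1 = 2 ^ (3 * m * n ^ 2).factorial := by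
    unfold CE
    congr 2
    ring
  rw [← h3, ← hT, ← hk]
  have h4 : 1 ≤ T ^ k := Nat.one_le_pow _ _ hT1
  calc 4 * n ^ 2 * T ^ k + 1 ≤ 4 * n ^ 2 * T ^ k + T ^ k := by omega
    _ = T ^ k * (4 * n ^ 2 + 1) := by ring
    _ ≤ T ^ k * T := Nat.mul_le_mul_left _ h1
    _ = T ^ (k + 1) := (pow_succ _ _).symm
    _ ≤ CE n m 1 := h2

theorem main_u (n m H : ℕ) (hn : 3 ≤ n) (hm : 1 ≤ m) (F : ℕ → MvPolynomial (Fin 2) ℤ)
    (hF : ∀ j ≤ m, (F j).totalDegree ≤ n) (hirr : ¬ Dec (famP ℚ m F))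
    (hsq : Squarefree (MvPolynomial.map (Int.castRingHom ℚ)
      (MvPolynomial.homogeneousComponent n (F m))))
    (htop : 2 ≤ m → Dec (topP ℂ n m F) → Dec (topP ℚ n m F))
    (hR : ∀ θ : ℝ, MvPolynomial.aeval ![θ, 1] (MvPolynomial.homogeneousComponent n (F m)) = 0 →
      2 * (minpoly ℚ θ).natDegree < n)
    (hH : 2 ≤ H) (hFH : ∀ j ≤ m, ∀ e, |(F j).coeff e| ≤ (H : ℤ)) (a : ℤ)
    (ha : (H : ℤ) ^ (2 ^ (3 * m * n ^ 2).factorial) ≤ |a|) :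
    (∀ x y : ℤ, ∑ j ∈ range (m + 1), a ^ j * MvPolynomial.eval ![x, y] (F j) = 0 →
      |x| ≤ |a| ^ (2 ^ (3 * m * n ^ 2).factorial) ∧ |y| ≤ |a| ^ (2 ^ (3 * m * n ^ 2).factorial)) ∧
    (¬ Mult m F →
      {p : ℤ × ℤ | ∑ j ∈ range (m + 1), a ^ j * MvPolynomial.eval ![p.1, p.2] (F j) = 0}.Finite ∧
      {p : ℤ × ℤ | ∑ j ∈ range (m + 1),
        a ^ j * MvPolynomial.eval ![p.1, p.2] (F j) = 0}.ncard ≤ 2 ^ (3 * m * n ^ 2).factorial) := by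
  obtain ⟨K, hK⟩ : ∃ K, K = 2 ^ (3 * m * n ^ 2).factorial := ⟨_, rfl⟩
  obtain ⟨E, hE⟩ : ∃ E, E = TN n m 1 ^ kU := ⟨_, rfl⟩
  have h1 := num_u hn hm
  have h2 := allZ_u hn hm
  rw [← hK] at ha h1 ⊢
  rw [← hE] at h1 h2
  have hE1 : 1 ≤ E := by
    rw [hE]
    refine Nat.one_le_pow _ _ ?_
    unfold TN
    exact Nat.one_le_two_pow
  exact main_uK hn hm hE1 h1 h2 F hF hirr hsq htop hR hH hFH a ha

end Pool.Agent.H4.XV
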