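import Pool.Agent.H4.TQ.Main
import Pool.Agent.H4.SX.MVX
import Pool.Agent.H4.XV.XUF

/-!
# The integer points of one-parameter families of plane curves

Let `n ≥ 3` and `F_0, …, F_m ∈ ℤ[x,y]` of total degree at most `n`, `F = F_0 + t F_1 + ⋯ + t^m F_m`.
Suppose that `F` is irreducible over `ℚ(t)` and that the part `f_m` of degree `n` of `F_m` is squarefree
over `ℚ`. If `m ≥ 2`, suppose that the part of degree `n` (in `x, y`) of `F` is either irreducible over
`ℂ(t)` or reducible over `ℚ(t)` (for pencils, `m = 1`, nothing is supposed).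

(1) EFFECTIVE AND UNIFORM: suppose that `m ≥ 1` and every real zero of `f_m(X,1)` has degree less than `n/2`
over `ℚ`. With the explicit constant `K = 2^((3 m n^2)!)`, for ALL `|a| ≥ H^K`, where `H ≥ 2` bounds the
coefficients of `F_0, …, F_m`, all integer points of the member `F_a = F_0 + a F_1 + ⋯ + a^m F_m = 0` have
`|x|, |y| ≤ |a|^K`, and their number is at most `K` unless `F_0, …, F_m` are proportional. The integer
points `(a,x,y)` of the surface `F(t,x,y) = 0` are not Zariski dense: a polynomial `G(t,x,y)`, not divisible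
by `F` over `ℚ(t)`, vanishes at all of them.

(2) For all but at most `K N^(1-δ)` of the integers `|a| ≤ N` every integer point `(x,y)` of `F_a = 0` is the
value `(r₁(a), r₂(a))` of a polynomial solution `r₁, r₂ ∈ ℚ[t]`, `F(t, r₁(t), r₂(t)) = 0`, of degree at most
`D`. There are only finitely many such polynomial solutions if the part of degree `n` of `F` has no zero but
`(0,0)` over `ℂ[t]`, for instance if it is irreducible over `ℂ(t)`. If `f_m` has no rational zero but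
`(0,0)`, the integer points of `F_a = 0` are exactly the common integer zeros of `F_0, …, F_m`.
-/

namespace Pool.Agent.H4.XV.DraftEF5

open Finset Polynomial

/-- the family `F_0 + t F_1 + ⋯ + t^m F_m`, over `k[t]` -/
noncomputable def family (k : Type) [Field k] (m : ℕ) (F : ℕ → MvPolynomial (Fin 2) ℤ) :
    MvPolynomial (Fin 2) k[X] :=
  ∑ j ∈ range (m + 1), MvPolynomial.C (X ^ j) * MvPolynomial.map (Int.castRingHom k[X]) (F j)

/-- the part of degree `n` in `x, y` of the family `F_0 + t F_1 + ⋯ + t^m F_m`, over `k[t]` -/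
noncomputable def topPart (k : Type) [Field k] (n m : ℕ) (F : ℕ → MvPolynomial (Fin 2) ℤ) :
    MvPolynomial (Fin 2) k[X] :=
  ∑ j ∈ range (m + 1), MvPolynomial.C (X ^ j) *
    MvPolynomial.map (Int.castRingHom k[X]) (MvPolynomial.homogeneousComponent n (F j))

/-- `p` is, up to a factor in the ring of coefficients, a product of two polynomials of positive
degree: for `p` over `k[t]`, `p` is reducible over `k(t)` -/
def Splits {R : Type} [CommRing R] (p : MvPolynomial (Fin 2) R) : Prop :=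
  ∃ (c : R) (g h : MvPolynomial (Fin 2) R), c ≠ 0 ∧ 0 < g.totalDegree ∧ 0 < h.totalDegree ∧
    MvPolynomial.C c * p = g * h

/-- the solutions `(r₁, r₂)` in `ℚ[t]` of degree at most `D` of
`F_0(r₁, r₂) + t F_1(r₁, r₂) + ⋯ + t^m F_m(r₁, r₂) = 0` -/
def polynomialSolutions (m : ℕ) (F : ℕ → MvPolynomial (Fin 2) ℤ) (D : ℕ) : Set (ℚ[X] × ℚ[X]) :=
  {r | r.1.natDegree ≤ D ∧ r.2.natDegree ≤ D ∧
    ∑ j ∈ range (m + 1), X ^ j * MvPolynomial.aeval ![r.1, r.2] (F j) = 0}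

/-- the integer points of the member `F_0 + a F_1 + ⋯ + a^m F_m = 0` -/
def integerPoints (m : ℕ) (F : ℕ → MvPolynomial (Fin 2) ℤ) (a : ℤ) : Set (ℤ × ℤ) :=
  {p | ∑ j ∈ range (m + 1), a ^ j * MvPolynomial.eval ![p.1, p.2] (F j) = 0}

/-- all `F_j`, `j ≤ m`, are rational multiples of `F_m` -/
def Proportional (m : ℕ) (F : ℕ → MvPolynomial (Fin 2) ℤ) : Prop :=
  ∀ j ≤ m, ∃ r : ℚ, MvPolynomial.map (Int.castRingHom ℚ) (F j) =
    MvPolynomial.C r * MvPolynomial.map (Int.castRingHom ℚ) (F m)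

/-- the exponent -/
def expo (n m : ℕ) : ℕ := 2 ^ (3 * m * n ^ 2).factorial

/-- **ExactFamilies.** -/
theorem result (n m : ℕ) (hn : 3 ≤ n) (F : ℕ → MvPolynomial (Fin 2) ℤ)
    (hF : ∀ j ≤ m, (F j).totalDegree ≤ n) (h1 : ¬ Splits (family ℚ m F))
    (h2 : Squarefree (MvPolynomial.map (Int.castRingHom ℚ)
      (MvPolynomial.homogeneousComponent n (F m))))
    (h3 : 2 ≤ m → Splits (topPart ℂ n m F) → Splits (topPart ℚ n m F)) :
    (1 ≤ m → (∀ θ : ℝ,
        MvPolynomial.aeval ![θ, 1] (MvPolynomial.homogeneousComponent n (F m)) = 0 →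
          2 * (minpoly ℚ θ).natDegree < n) →
      (∀ H : ℕ, 2 ≤ H → (∀ j ≤ m, ∀ e, |(F j).coeff e| ≤ (H : ℤ)) →
        ∀ a : ℤ, (H : ℤ) ^ expo n m ≤ |a| →
          (∀ p ∈ integerPoints m F a, |p.1| ≤ |a| ^ expo n m ∧ |p.2| ≤ |a| ^ expo n m) ∧
          (¬ Proportional m F →
            (integerPoints m F a).Finite ∧ (integerPoints m F a).ncard ≤ expo n m)) ∧
      ∃ G : MvPolynomial (Fin 2) ℚ[X],
        (∀ c : ℚ[X], c ≠ 0 → ¬ family ℚ m F ∣ MvPolynomial.C c * G) ∧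
        ∀ a : ℤ, ∀ p ∈ integerPoints m F a,
          (MvPolynomial.eval ![C (p.1 : ℚ), C (p.2 : ℚ)] G).eval (a : ℚ) = 0) ∧
    (∃ (K δ : ℝ) (D : ℕ), 0 < δ ∧ δ < 1 ∧
      ((∀ X Y : ℂ[X], MvPolynomial.aeval ![X, Y] (topPart ℂ n m F) = 0 → X = 0 ∧ Y = 0) →
        (polynomialSolutions m F D).Finite) ∧
      ∀ N : ℕ, 1 ≤ N → ∃ E : Finset ℤ, (E.card : ℝ) ≤ K * (N : ℝ) ^ (1 - δ) ∧
        ∀ a : ℤ, |a| ≤ N → a ∉ E → ∀ p ∈ integerPoints m F a,
          (∃ r ∈ polynomialSolutions m F D, r.1.eval (a : ℚ) = p.1 ∧ r.2.eval (a : ℚ) = p.2) ∧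
          ((∀ u v : ℚ,
            MvPolynomial.aeval ![u, v] (MvPolynomial.homogeneousComponent n (F m)) = 0 →
              u = 0 ∧ v = 0) → ∀ j ≤ m, MvPolynomial.eval ![p.1, p.2] (F j) = 0)) := by
  refine ⟨fun hm hR => ⟨fun H hH hc a ha => ?_, ?_⟩, ?_⟩
  · obtain ⟨h4, h5⟩ := Pool.Agent.H4.XV.main_u n m H hn hm F hF h1 h2 h3 hR hH hc a ha
    exact ⟨fun p hp => h4 p.1 p.2 hp, fun hP => h5 hP⟩
  · obtain ⟨G, K, hG, hz, -⟩ := Pool.Agent.H4.SX.main_x n m hn hm F hF h1 h2 h3 hR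
    exact ⟨G, hG, fun a p hp => hz a p.1 p.2 hp⟩
  · obtain ⟨K, δ, D, hδ, hδ1, hfin, H⟩ := Pool.Agent.H4.TQ.main n m hn F hF h1 h2 h3
    refine ⟨K, δ, D, hδ, hδ1, hfin, fun N hN => ?_⟩
    obtain ⟨E, hE, HE⟩ := H N hN
    exact ⟨E, hE, fun a ha haE p hp => HE a ha haE p.1 p.2 hp⟩

end Pool.Agent.H4.XV.DraftEF5
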