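import Pool.Agent.H4.TP.COV

/-! # [H4 XV GLU] A linear substitution of determinant `1` with small entries

`Q = ∑_(l ≤ n) c_l x^(n-l) y^l ≠ 0`; `q(Z) = Q(1, Z)` has a non-root `k ≤ n`; `r(Z) = Q(Z, 1 + k Z)` has the coefficient
`q(k) ≠ 0` of `Z^n`, so a non-root `l ≤ n`. `(α, γ) = (1, k)`, `(β, δ) = (l, 1 + k l)`. -/

namespace Pool.Agent.H4.XV

open Finset Polynomial Pool.Agent.H4.TP

/-- a polynomial of degree `≤ n`, not zero, has a non-root `≤ n` -/
private theorem nonroot {n : ℕ} {q : ℤ[X]} (h0 : q ≠ 0) (hd : q.natDegree ≤ n) :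
    ∃ k : ℕ, k ≤ n ∧ q.eval (k : ℤ) ≠ 0 := by
  by_contra hc
  push Not at hc
  apply h0
  refine Polynomial.eq_zero_of_natDegree_lt_card_of_eval_eq_zero' q
    ((range (n + 1)).image fun k : ℕ => (k : ℤ)) ?_ ?_
  · intro i hi
    obtain ⟨k, hk, rfl⟩ := mem_image.1 hi
    exact hc k (by rw [mem_range] at hk; omega)
  · rw [card_image_of_injective _ Nat.cast_injective, card_range]
    omega

theorem good_linU {n : ℕ} {P : MvPolynomial (Fin 2) ℤ}
    (hP : MvPolynomial.homogeneousComponent n P ≠ 0) :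
    ∃ α β γ δ : ℤ, α * δ - β * γ = 1 ∧
      MvPolynomial.eval ![α, γ] (MvPolynomial.homogeneousComponent n P) ≠ 0 ∧
      MvPolynomial.eval ![β, δ] (MvPolynomial.homogeneousComponent n P) ≠ 0 ∧
      |α| ≤ (n : ℤ) ^ 2 + 1 ∧ |β| ≤ (n : ℤ) ^ 2 + 1 ∧ |γ| ≤ (n : ℤ) ^ 2 + 1 ∧
      |δ| ≤ (n : ℤ) ^ 2 + 1 := by
  obtain ⟨c, hc⟩ : ∃ c : ℕ → ℤ, c = fun l => P.coeff (Finsupp.single 0 (n - l) + Finsupp.single 1 l) :=
    ⟨_, rfl⟩
  have hQ : MvPolynomial.homogeneousComponent n P = ∑ l ∈ range (n + 1),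
      MvPolynomial.C (c l) * MvPolynomial.X 0 ^ (n - l) * MvPolynomial.X 1 ^ l := by
    rw [Pool.Agent.H4.TE.top_cf, hc]
  have hev : ∀ x y : ℤ, MvPolynomial.eval ![x, y] (MvPolynomial.homogeneousComponent n P) =
      ∑ l ∈ range (n + 1), c l * x ^ (n - l) * y ^ l := by
    intro x y
    rw [hQ, map_sum]
    refine sum_congr rfl fun l _ => ?_
    rw [map_mul, map_mul, map_pow, map_pow, MvPolynomial.eval_C, MvPolynomial.eval_X,
      MvPolynomial.eval_X]
    rfl
  obtain ⟨q, hq⟩ : ∃ q : ℤ[X], q = ∑ l ∈ range (n + 1), C (c l) * X ^ l := ⟨_, rfl⟩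
  have hqe : ∀ y : ℤ, q.eval y = MvPolynomial.eval ![1, y]
      (MvPolynomial.homogeneousComponent n P) := by
    intro y
    rw [hev, hq, eval_finsetSum]
    refine sum_congr rfl fun l _ => ?_
    simp
  have hqc : ∀ l ≤ n, q.coeff l = c l := by
    intro l hl
    rw [hq, finsetSum_coeff]
    simp only [coeff_C_mul, coeff_X_pow, mul_ite, mul_one, mul_zero]
    rw [Finset.sum_ite_eq, if_pos (mem_range.2 (by omega))]
  have hq0 : q ≠ 0 := by
    intro h
    apply hP
    rw [hQ]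
    refine sum_eq_zero fun l hl => ?_
    have h1 := hqc l (by rw [mem_range] at hl; omega)
    rw [h, coeff_zero] at h1
    rw [← h1, map_zero, zero_mul, zero_mul]
  have hqd : q.natDegree ≤ n := by
    rw [hq]
    refine natDegree_sum_le_of_forall_le _ _ fun l hl => ?_
    refine (natDegree_C_mul_X_pow_le _ _).trans ?_
    rw [mem_range] at hl
    omega
  obtain ⟨k, hk, hk0⟩ := nonroot hq0 hqd
  obtain ⟨r, hr⟩ : ∃ r : ℤ[X], r = ∑ l ∈ range (n + 1),
      C (c l) * X ^ (n - l) * (1 + C (k : ℤ) * X) ^ l := ⟨_, rfl⟩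
  have hre : ∀ z : ℤ, r.eval z = MvPolynomial.eval ![z, 1 + k * z]
      (MvPolynomial.homogeneousComponent n P) := by
    intro z
    rw [hev, hr, eval_finsetSum]
    refine sum_congr rfl fun l _ => ?_
    simp
  have hlin : (1 + C (k : ℤ) * X : ℤ[X]).natDegree ≤ 1 := by
    refine natDegree_add_le_of_degree_le ?_ ?_
    · rw [natDegree_one]
      omega
    · refine (natDegree_C_mul_le _ _).trans ?_
      exact natDegree_X_le
  have hcoef : ∀ l ≤ n, (C (c l) * X ^ (n - l) * (1 + C (k : ℤ) * X) ^ l : ℤ[X]).natDegree ≤ n ∧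
      (C (c l) * X ^ (n - l) * (1 + C (k : ℤ) * X) ^ l : ℤ[X]).coeff n = c l * (k : ℤ) ^ l := by
    intro l hl
    have h1 : ((1 + C (k : ℤ) * X : ℤ[X]) ^ l).natDegree ≤ l := by
      refine natDegree_pow_le.trans ?_
      calc l * (1 + C (k : ℤ) * X : ℤ[X]).natDegree ≤ l * 1 := Nat.mul_le_mul_left _ hlin
        _ = l := mul_one _
    constructor
    · refine natDegree_mul_le.trans ?_
      have h2 := natDegree_C_mul_X_pow_le (c l) (n - l)
      omega
    · have h2 : ((1 + C (k : ℤ) * X : ℤ[X]) ^ l).coeff l = (k : ℤ) ^ l := by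
        have h3 := coeff_pow_of_natDegree_le (m := l) hlin
        rw [mul_one] at h3
        rw [h3]
        simp [coeff_one]
      have h4 : (C (c l) * X ^ (n - l) * (1 + C (k : ℤ) * X) ^ l : ℤ[X]).coeff n =
          (C (c l) * ((1 + C (k : ℤ) * X) ^ l * X ^ (n - l)) : ℤ[X]).coeff (l + (n - l)) := by
        rw [Nat.add_sub_cancel' hl]
        congr 1
        ring
      rw [h4, coeff_C_mul, coeff_mul_X_pow, h2]
  have hrn : r.coeff n = q.eval (k : ℤ) := by
    rw [hr, finsetSum_coeff, hq, eval_finsetSum]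
    refine sum_congr rfl fun l hl => ?_
    rw [(hcoef l (by rw [mem_range] at hl; omega)).2]
    simp
  have hr0 : r ≠ 0 := by
    intro h
    rw [h, coeff_zero] at hrn
    exact hk0 hrn.symm
  have hrd : r.natDegree ≤ n := by
    rw [hr]
    refine natDegree_sum_le_of_forall_le _ _ fun l hl => ?_
    exact (hcoef l (by rw [mem_range] at hl; omega)).1
  obtain ⟨l, hl, hl0⟩ := nonroot hr0 hrd
  have hkn : (k : ℤ) ≤ n := by exact_mod_cast hk
  have hln : (l : ℤ) ≤ n := by exact_mod_cast hl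
  have hk1 : (0 : ℤ) ≤ k := by positivity
  have hl1 : (0 : ℤ) ≤ l := by positivity
  have hn1 : (n : ℤ) ≤ (n : ℤ) ^ 2 := by
    rcases Nat.eq_zero_or_pos n with h | h
    · subst h
      simp
    · have : (1 : ℤ) ≤ n := by exact_mod_cast h
      nlinarith
  refine ⟨1, l, k, 1 + k * l, by ring, ?_, ?_, ?_, ?_, ?_, ?_⟩
  · rw [← hqe]
    exact hk0
  · rw [← hre]
    exact hl0
  · rw [abs_one]
    nlinarith
  · rw [abs_of_nonneg hl1]
    linarith
  · rw [abs_of_nonneg hk1]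
    linarith
  · rw [abs_of_nonneg (by positivity)]
    nlinarith

end Pool.Agent.H4.XV
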