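import Pool.Agent.H4.XV.PRL
import Pool.Agent.H4.XV.CBL
import Pool.Agent.H4.XV.GLU
import Pool.Agent.H4.SX.COR
import Pool.Agent.H4.SX.MOB
import Pool.Agent.H4.SX.NDV
import Pool.Agent.H4.TP.HYP
import Pool.Agent.H4.TP.COV

/-! # [H4 XV MVU] The explicit theorem for families of polynomials in two variables, from the one for `HypG`

`AllZ n m E`: the statement `all_z` of `Pool/Agent/H97/XU` with an exponent `E`. As `main_x` (`Pool/Agent/H4/SX/MVX.lean`), with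
the small linear substitution `good_linU` and the bound `cb_lin` for the coefficients of the new family. -/

namespace Pool.Agent.H4.XV

open Finset Polynomial Pool.Agent.H37.TE Pool.Agent.H98.TE Pool.Agent.H4.TE Pool.Agent.H4.TP
  Pool.Agent.H97.XU Pool.Agent.H4.SX

/-- the explicit theorem for `HypG`, with the exponent `E` -/
def AllZ (n m E : ℕ) : Prop :=
  ∀ B : ℕ, 2 ≤ B → ∀ F : ℤ[X][X][X], HypG n m F → CB B F → HR n m F →
    (Alpha (topf n F) ∨ Beta (topf n F) ∨ Gamma (topf n F)) → ∀ a : ℤ, (B : ℤ) ^ E ≤ |a| →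
      (∀ x y : ℤ, ev3 a x y F = 0 → |x| ≤ |a| ^ E ∧ |y| ≤ |a| ^ E) ∧
      (¬ (∀ j a b a' b', cf3 F j a b * cf3 F m a' b' = cf3 F j a' b' * cf3 F m a b) →
        ∃ S : Finset (ℤ × ℤ), S.card ≤ E ∧ ∀ x y : ℤ, ev3 a x y F = 0 → (x, y) ∈ S)

theorem main_uK {n m E K H : ℕ} (hn : 3 ≤ n) (hm : 1 ≤ m) (hE : 1 ≤ E)
    (hK : 4 * n ^ 2 * E + 1 ≤ K) (hA : AllZ n m E) (F : ℕ → MvPolynomial (Fin 2) ℤ)
    (hF : ∀ j ≤ m, (F j).totalDegree ≤ n) (hirr : ¬ Dec (famP ℚ m F))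
    (hsq : Squarefree (MvPolynomial.map (Int.castRingHom ℚ)
      (MvPolynomial.homogeneousComponent n (F m))))
    (htop : 2 ≤ m → Dec (topP ℂ n m F) → Dec (topP ℚ n m F))
    (hR : ∀ θ : ℝ, MvPolynomial.aeval ![θ, 1] (MvPolynomial.homogeneousComponent n (F m)) = 0 →
      2 * (minpoly ℚ θ).natDegree < n)
    (hH : 2 ≤ H) (hFH : ∀ j ≤ m, ∀ e, |(F j).coeff e| ≤ (H : ℤ)) (a : ℤ) (ha : (H : ℤ) ^ K ≤ |a|) :
    (∀ x y : ℤ, ∑ j ∈ range (m + 1), a ^ j * MvPolynomial.eval ![x, y] (F j) = 0 →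
      |x| ≤ |a| ^ K ∧ |y| ≤ |a| ^ K) ∧
    (¬ Mult m F →
      {p : ℤ × ℤ | ∑ j ∈ range (m + 1), a ^ j * MvPolynomial.eval ![p.1, p.2] (F j) = 0}.Finite ∧
      {p : ℤ × ℤ | ∑ j ∈ range (m + 1),
        a ^ j * MvPolynomial.eval ![p.1, p.2] (F j) = 0}.ncard ≤ K) := by
  have hQ : MvPolynomial.homogeneousComponent n (F m) ≠ 0 := by
    intro h0
    rw [h0, map_zero] at hsq
    exact hsq.ne_zero rfl
  obtain ⟨α, β, γ, δ, hdet, hc0, hc1, hα, hβ, hγ, hδ⟩ := good_linU hQ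
  obtain ⟨G, hG⟩ : ∃ G : ℕ → MvPolynomial (Fin 2) ℤ, G = fun j => lin α β γ δ (F j) := ⟨_, rfl⟩
  have hGj : ∀ j, G j = lin α β γ δ (F j) := fun j => by rw [hG]
  have hev : ∀ (x y : ℤ) (p : MvPolynomial (Fin 2) ℤ), MvPolynomial.eval ![x, y]
      (lin α β γ δ p) = MvPolynomial.eval ![α * x + β * y, γ * x + δ * y] p := by
    intro x y p
    have h1 := lin_eval (α := α) (β := β) (γ := γ) (δ := δ) x y p
    rw [MvPolynomial.aeval_eq_eval, MvPolynomial.aeval_eq_eval] at h1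
    simpa using h1
  have hG1 : MvPolynomial.eval ![0, 1] (MvPolynomial.homogeneousComponent n (G m)) ≠ 0 := by
    rw [hGj, lin_homog, hev]
    simpa using hc1
  obtain ⟨a1, a3⟩ := hyp_of (n := n) (m := m) (F := G) (by omega) hm
    (fun j hj => by rw [hGj, lin_tot hdet]; exact hF j hj)
    (by rw [hG, famP_lin, dec_lin hdet]; exact hirr)
    (by rw [hGj, lin_homog, lin_map]; exact sqf_lin hdet hsq)
    (by rw [hG, topP_lin, topP_lin, dec_lin hdet, dec_lin hdet]; exact htop)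
    (by
      rw [hGj, lin_homog, hev]
      simpa using hc0) hG1
  have hHR : HR n m (F3 m G) := by
    rw [hG]
    exact hr_lin hn F hdet hQ hR
  have hCB : CB (H ^ (4 * n ^ 2)) (F3 m G) := by
    rw [hG]
    exact cb_lin hn hH hα hβ hγ hδ hF hFH
  have hH1 : (1 : ℤ) ≤ H := by exact_mod_cast (by omega : 1 ≤ H)
  have ha2 : ((H ^ (4 * n ^ 2) : ℕ) : ℤ) ^ E ≤ |a| := by
    push_cast
    rw [← pow_mul]
    exact (pow_le_pow_right₀ hH1 (by omega)).trans ha
  have hn2 : 1 ≤ n ^ 2 := Nat.one_le_pow _ _ (by omega)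
  obtain ⟨w1, w2⟩ := hA (H ^ (4 * n ^ 2))
    (hH.trans (Nat.le_self_pow (by omega) H)) (F3 m G) a1 hCB hHR a3 a ha2
  have ex : ∀ x y : ℤ, α * (δ * x - β * y) + β * (-γ * x + α * y) = x := fun x y => by
    linear_combination x * hdet
  have ey : ∀ x y : ℤ, γ * (δ * x - β * y) + δ * (-γ * x + α * y) = y := fun x y => by
    linear_combination y * hdet
  have hzero : ∀ x y : ℤ, ∑ j ∈ range (m + 1), a ^ j * MvPolynomial.eval ![x, y] (F j) = 0 →
      ev3 a (δ * x - β * y) (-γ * x + α * y) (F3 m G) = 0 := by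
    intro x y hxy
    rw [ev3_f3, ← hxy]
    refine sum_congr rfl fun j _ => ?_
    rw [MvPolynomial.aeval_eq_eval, hGj]
    congr 1
    have h1 := hev (δ * x - β * y) (-γ * x + α * y) (F j)
    rw [ex, ey] at h1
    exact h1
  have hEK : E + 1 ≤ K := by
    have h1 : E * 1 ≤ E * (4 * n ^ 2) := Nat.mul_le_mul_left _ (by omega)
    have h2 : E * (4 * n ^ 2) = 4 * n ^ 2 * E := mul_comm _ _
    omega
  refine ⟨fun x y hxy => ?_, fun hM => ?_⟩
  · obtain ⟨g1, g2⟩ := w1 _ _ (hzero x y hxy)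
    have ha3 : 2 * ((n : ℤ) ^ 2 + 1) ≤ |a| := by
      have h1 : 2 * (n ^ 2 + 1) ≤ 2 ^ (4 * n ^ 2) := by
        have h0 : 4 * n ^ 2 < 2 ^ (4 * n ^ 2) := Nat.lt_two_pow_self
        omega
      have h2 : 2 * (n ^ 2 + 1) ≤ (H ^ (4 * n ^ 2)) ^ E := by
        refine h1.trans ((Nat.pow_le_pow_left hH _).trans ?_)
        exact Nat.le_self_pow (by omega) _
      have h3 : ((2 * (n ^ 2 + 1) : ℕ) : ℤ) ≤ (((H ^ (4 * n ^ 2)) ^ E : ℕ) : ℤ) := by
        exact_mod_cast h2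
      push_cast at h3 ha2
      exact h3.trans ha2
    have ha1 : 1 ≤ |a| := by
      have : (0 : ℤ) ≤ (n : ℤ) ^ 2 := by positivity
      linarith
    have hP : (0 : ℤ) ≤ |a| ^ E := by positivity
    have hgen : ∀ u v : ℤ, |u| ≤ (n : ℤ) ^ 2 + 1 → |v| ≤ (n : ℤ) ^ 2 + 1 →
        |u * (δ * x - β * y) + v * (-γ * x + α * y)| ≤ |a| ^ K := by
      intro u v hu hv
      calc |u * (δ * x - β * y) + v * (-γ * x + α * y)| ≤
          |u * (δ * x - β * y)| + |v * (-γ * x + α * y)| := abs_add_le _ _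
        _ = |u| * |δ * x - β * y| + |v| * |-γ * x + α * y| := by rw [abs_mul, abs_mul]
        _ ≤ |u| * |a| ^ E + |v| * |a| ^ E := add_le_add
            (mul_le_mul_of_nonneg_left g1 (abs_nonneg _))
            (mul_le_mul_of_nonneg_left g2 (abs_nonneg _))
        _ = (|u| + |v|) * |a| ^ E := by ring
        _ ≤ |a| * |a| ^ E := mul_le_mul_of_nonneg_right (by linarith) hP
        _ = |a| ^ (E + 1) := by ring
        _ ≤ |a| ^ K := pow_le_pow_right₀ ha1 hEK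
    have hx := hgen α β hα hβ
    have hy := hgen γ δ hγ hδ
    rw [ex] at hx
    rw [ey] at hy
    exact ⟨hx, hy⟩
  · have hM' : ¬ (∀ j a b a' b', cf3 (F3 m G) j a b * cf3 (F3 m G) m a' b' =
        cf3 (F3 m G) j a' b' * cf3 (F3 m G) m a b) := by
      intro h
      apply hM
      have hGm : G m ≠ 0 := by
        intro h0
        rw [h0, map_zero, map_zero] at hG1
        exact hG1 rfl
      have h1 := mult_of hGm h
      rw [hG] at h1
      exact mult_lin hdet h1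
    obtain ⟨S, hS, HS⟩ := w2 hM'
    have himg : {p : ℤ × ℤ | ∑ j ∈ range (m + 1), a ^ j * MvPolynomial.eval ![p.1, p.2] (F j) = 0} ⊆
        ((S.image fun q : ℤ × ℤ => (α * q.1 + β * q.2, γ * q.1 + δ * q.2) : Finset (ℤ × ℤ)) :
          Set (ℤ × ℤ)) := by
      rintro ⟨x, y⟩ hxy
      rw [coe_image]
      refine ⟨(δ * x - β * y, -γ * x + α * y), HS _ _ (hzero x y hxy), ?_⟩
      simp only
      rw [ex, ey]
    refine ⟨(finite_toSet _).subset himg, ?_⟩
    refine (Set.ncard_le_ncard himg (finite_toSet _)).trans ?_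
    rw [Set.ncard_coe_finset]
    refine card_image_le.trans ?_
    omega

end Pool.Agent.H4.XV
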