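import Pool.Agent.H4.TP.LIN
import Pool.Agent.H4.TE.NEG

/-! # [H4 XV PRL] Proportionality of the coefficients of the family in terms of the polynomials `F_j`

`Prp m F`: the minors of the coefficient vectors of `F_j` and `F_m` vanish. For `F3 m G` this means that every
`G_j`, `j ≤ m`, is a rational multiple of `G_m`; a linear substitution of determinant `1` preserves this. -/

namespace Pool.Agent.H4.XV

open Finset Polynomial Pool.Agent.H37.TE Pool.Agent.H98.TE Pool.Agent.H4.TE Pool.Agent.H4.TP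

/-- every `F_j`, `j ≤ m`, is a rational multiple of `F_m` -/
def Mult (m : ℕ) (F : ℕ → MvPolynomial (Fin 2) ℤ) : Prop :=
  ∀ j ≤ m, ∃ r : ℚ, MvPolynomial.map (Int.castRingHom ℚ) (F j) =
    MvPolynomial.C r * MvPolynomial.map (Int.castRingHom ℚ) (F m)

theorem cf3_F3 {m : ℕ} (F : ℕ → MvPolynomial (Fin 2) ℤ) {j : ℕ} (hj : j ≤ m) (a b : ℕ) :
    cf3 (F3 m F) j a b = (F j).coeff (Finsupp.single 0 a + Finsupp.single 1 b) := by
  rw [cf3, coeff_f3, finsetSum_coeff, sum_eq_single j]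
  · rw [coeff_C_mul, coeff_X_pow, if_pos rfl, mul_one]
  · intro i _ hi
    rw [coeff_C_mul, coeff_X_pow, if_neg (Ne.symm hi), mul_zero]
  · intro h
    exact absurd (mem_range.2 (by omega)) h

private theorem two_exp (e : Fin 2 →₀ ℕ) : e = Finsupp.single 0 (e 0) + Finsupp.single 1 (e 1) := by
  ext i
  fin_cases i
  · simp
  · simp

theorem mult_of {m : ℕ} {F : ℕ → MvPolynomial (Fin 2) ℤ} (h0 : F m ≠ 0)
    (h : ∀ j a b a' b', cf3 (F3 m F) j a b * cf3 (F3 m F) m a' b' =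
      cf3 (F3 m F) j a' b' * cf3 (F3 m F) m a b) : Mult m F := by
  intro j hj
  obtain ⟨d, hd⟩ := MvPolynomial.ne_zero_iff.1 h0
  have hdq : (((F m).coeff d : ℤ) : ℚ) ≠ 0 := by exact_mod_cast hd
  refine ⟨(((F j).coeff d : ℤ) : ℚ) / (((F m).coeff d : ℤ) : ℚ), ?_⟩
  ext e
  rw [MvPolynomial.coeff_map, MvPolynomial.coeff_C_mul, MvPolynomial.coeff_map]
  have h1 := h j (e 0) (e 1) (d 0) (d 1)
  rw [cf3_F3 F hj, cf3_F3 F le_rfl, cf3_F3 F hj, cf3_F3 F le_rfl, ← two_exp, ← two_exp] at h1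
  have h2 : (((F j).coeff e : ℤ) : ℚ) * (((F m).coeff d : ℤ) : ℚ) =
      (((F j).coeff d : ℤ) : ℚ) * (((F m).coeff e : ℤ) : ℚ) := by
    exact_mod_cast h1
  rw [eq_intCast, eq_intCast, div_mul_eq_mul_div, eq_div_iff hdq]
  exact h2

theorem mult_lin {m : ℕ} {α β γ δ : ℤ} (hdet : α * δ - β * γ = 1)
    {F : ℕ → MvPolynomial (Fin 2) ℤ} (h : Mult m (fun j => lin α β γ δ (F j))) : Mult m F := by
  intro j hj
  obtain ⟨r, hr⟩ := h j hj
  refine ⟨r, ?_⟩
  simp only [lin_map] at hr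
  have h1 := congrArg (lin δ (-β) (-γ) α) hr
  rw [map_mul, lin_inv hdet, lin_inv hdet] at h1
  have h2 : lin δ (-β) (-γ) α (MvPolynomial.C r : MvPolynomial (Fin 2) ℚ) = MvPolynomial.C r := by
    unfold lin
    exact MvPolynomial.aeval_C _ r
  rw [h2] at h1
  exact h1

end Pool.Agent.H4.XV
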