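import Pool.Agent.H97.XU.ELU

/-! # [H4 XV SUM] A polynomial for `α x + β y` from polynomials for `x` and for `y`

`P, Q ∈ ℤ[t][X]`, `c = lc P · lc Q`, companion matrices `A_P`, `A_Q`, `M = α lc(Q) (A_P ⊗ 1) + β lc(P) (1 ⊗ A_Q)`,
`R = c det(c X - M)`. -/

namespace Pool.Agent.H4.XV

open Finset Polynomial Pool.Agent.H37.TE Pool.Agent.H98.TE Pool.Agent.H4.TE Pool.Agent.H4.TP
  Pool.Agent.H97.XU

/-! ## sizes (copies of private lemmas of `ELU`) -/

private theorem l1_mon (c : ℤ) (i j : ℕ) :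
    L1 (emb (C (C c) * (C X) ^ j * X ^ i)) ≤ c.natAbs := by
  have e1 : emb (C (C c) * (C X) ^ j * X ^ i) =
      MvPolynomial.C c * MvPolynomial.X 1 ^ j * MvPolynomial.X 0 ^ i := by
    rw [map_mul, map_mul, map_pow, map_pow]
    unfold emb
    simp
  rw [e1]
  refine (L1_mul _ _).trans ?_
  have h1 : L1 (MvPolynomial.X 0 ^ i : U4) ≤ 1 := by
    refine (L1_pow _ _).trans ?_
    rw [L1_X, one_pow]
  have h2 : L1 (MvPolynomial.X 1 ^ j : U4) ≤ 1 := by
    refine (L1_pow _ _).trans ?_
    rw [L1_X, one_pow]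
  have h3 : L1 (MvPolynomial.C c * MvPolynomial.X 1 ^ j : U4) ≤ c.natAbs := by
    refine (L1_mul _ _).trans ?_
    rw [L1_C]
    calc c.natAbs * L1 (MvPolynomial.X 1 ^ j : U4) ≤ c.natAbs * 1 := Nat.mul_le_mul_left _ h2
      _ = c.natAbs := mul_one _
  calc _ ≤ c.natAbs * 1 := Nat.mul_le_mul h3 h1
    _ = c.natAbs := mul_one _

private theorem two_sum (D e : ℕ) (P : ℤ[X][X]) (h : BD D e P) :
    P = ∑ i ∈ range (e + 1), ∑ j ∈ range (D + 1),
      C (C ((P.coeff i).coeff j)) * (C X) ^ j * X ^ i := by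
  conv_lhs => rw [P.as_sum_range' (e + 1) (Nat.lt_succ_of_le h.1)]
  refine sum_congr rfl fun i _ => ?_
  rw [← C_mul_X_pow_eq_monomial, ← sum_mul]
  congr 1
  conv_lhs => rw [(P.coeff i).as_sum_range' (D + 1) (Nat.lt_succ_of_le (h.2 i))]
  rw [map_sum]
  refine sum_congr rfl fun j _ => ?_
  rw [← C_mul_X_pow_eq_monomial, C_mul, C_pow]

private theorem l1_bd {D k B : ℕ} {P : ℤ[X][X]} (h : BD D D P)
    (hk : ∀ i j, |(P.coeff i).coeff j| ≤ (B : ℤ) ^ k) : L1 (emb P) ≤ (D + 1) ^ 2 * B ^ k := by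
  rw [two_sum D D P h, map_sum]
  refine (L1_sum _ _).trans ?_
  have h1 : ∀ i ∈ range (D + 1), L1 (emb (∑ j ∈ range (D + 1),
      C (C ((P.coeff i).coeff j)) * (C X) ^ j * X ^ i)) ≤ (D + 1) * B ^ k := by
    intro i _
    rw [map_sum]
    refine (L1_sum _ _).trans ?_
    have h2 : ∀ j ∈ range (D + 1), L1 (emb (C (C ((P.coeff i).coeff j)) * (C X) ^ j * X ^ i)) ≤
        B ^ k := by
      intro j _
      refine (l1_mon _ _ _).trans ?_
      have h3 := hk i j
      rw [Int.abs_eq_natAbs] at h3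
      exact_mod_cast h3
    refine (sum_le_sum h2).trans ?_
    rw [sum_const, card_range, smul_eq_mul]
  refine (sum_le_sum h1).trans ?_
  rw [sum_const, card_range, smul_eq_mul]
  exact le_of_eq (by ring)

private theorem emb_deg {D e : ℕ} {P : ℤ[X][X]} (h : BD D e P) : (emb P).totalDegree ≤ D + e := by
  rw [two_sum D e P h, map_sum]
  refine (MvPolynomial.totalDegree_finsetSum _ _).trans (Finset.sup_le fun i hi => ?_)
  rw [map_sum]
  refine (MvPolynomial.totalDegree_finsetSum _ _).trans (Finset.sup_le fun j hj => ?_)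
  have e1 : emb (C (C ((P.coeff i).coeff j)) * (C X) ^ j * X ^ i) =
      MvPolynomial.C ((P.coeff i).coeff j) * MvPolynomial.X 1 ^ j * MvPolynomial.X 0 ^ i := by
    rw [map_mul, map_mul, map_pow, map_pow]
    unfold emb
    simp
  rw [e1]
  rw [mem_range] at hi hj
  refine (MvPolynomial.totalDegree_mul _ _).trans ?_
  have h1 : (MvPolynomial.X 0 ^ i : U4).totalDegree ≤ i := by
    refine (MvPolynomial.totalDegree_pow _ _).trans ?_
    rw [MvPolynomial.totalDegree_X, mul_one]
  have h2 : (MvPolynomial.X 1 ^ j : U4).totalDegree ≤ j := by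
    refine (MvPolynomial.totalDegree_pow _ _).trans ?_
    rw [MvPolynomial.totalDegree_X, mul_one]
  have h3 := MvPolynomial.totalDegree_mul (MvPolynomial.C ((P.coeff i).coeff j))
    (MvPolynomial.X 1 ^ j : U4)
  rw [MvPolynomial.totalDegree_C] at h3
  omega

private theorem emb_coeff (R : ℤ[X][X]) (i j : ℕ) :
    (emb R).coeff (Finsupp.single 0 i + Finsupp.single 1 j) = (R.coeff i).coeff j := by
  classical
  obtain ⟨N, hN⟩ : ∃ N, BD N N R := by
    refine ⟨R.natDegree + ∑ j ∈ range (R.natDegree + 1), (R.coeff j).natDegree, by omega, fun k => ?_⟩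
    by_cases hk : k < R.natDegree + 1
    · have := single_le_sum (f := fun j => (R.coeff j).natDegree) (fun _ _ => Nat.zero_le _)
        (mem_range.2 hk)
      omega
    · rw [coeff_eq_zero_of_natDegree_lt (n := k) (by omega), natDegree_zero]
      exact Nat.zero_le _
  have e0 := two_sum N N R hN
  have e1 : ∀ (c : ℤ) (i' j' : ℕ), emb (C (C c) * (C X) ^ j' * X ^ i') =
      MvPolynomial.monomial (Finsupp.single 0 i' + Finsupp.single 1 j') c := by
    intro c i' j'
    rw [map_mul, map_mul, map_pow, map_pow]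
    unfold emb
    simp only [coe_eval₂RingHom, eval₂_C, eval₂_X]
    rw [MvPolynomial.X_pow_eq_monomial, MvPolynomial.X_pow_eq_monomial]
    have e2 : (Int.castRingHom U4) c = MvPolynomial.C c := by simp
    rw [e2, MvPolynomial.C_mul_monomial, MvPolynomial.monomial_mul, mul_one, mul_one,
      add_comm (Finsupp.single 1 j')]
  have hinj : ∀ i' j' : ℕ, (Finsupp.single 0 i' + Finsupp.single 1 j' : Fin 4 →₀ ℕ) =
      Finsupp.single 0 i + Finsupp.single 1 j → i' = i ∧ j' = j := by
    intro i' j' h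
    have h0 := DFunLike.congr_fun h 0
    have h1 := DFunLike.congr_fun h 1
    simp at h0 h1
    exact ⟨h0, h1⟩
  conv_lhs => rw [e0]
  rw [map_sum, MvPolynomial.coeff_sum]
  have e3 : ∀ i' ∈ range (N + 1), MvPolynomial.coeff (Finsupp.single 0 i + Finsupp.single 1 j)
      (emb (∑ j' ∈ range (N + 1), C (C ((R.coeff i').coeff j')) * (C X) ^ j' * X ^ i')) =
      if i' = i then (R.coeff i).coeff j else 0 := by
    intro i' _
    rw [map_sum, MvPolynomial.coeff_sum]
    by_cases hi : i' = i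
    · subst hi
      rw [if_pos rfl]
      rw [Finset.sum_eq_single j]
      · rw [e1, MvPolynomial.coeff_monomial, if_pos rfl]
      · intro j' _ hj
        rw [e1, MvPolynomial.coeff_monomial, if_neg fun h => hj (hinj _ _ h).2]
      · intro hj
        rw [mem_range, not_lt] at hj
        have : (R.coeff i').coeff j = 0 :=
          coeff_eq_zero_of_natDegree_lt (lt_of_le_of_lt (hN.2 i') (by omega))
        rw [this]
        simp
    · rw [if_neg hi]
      refine sum_eq_zero fun j' _ => ?_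
      rw [e1, MvPolynomial.coeff_monomial, if_neg fun h => hi (hinj _ _ h).1]
  rw [sum_congr rfl e3, Finset.sum_ite_eq']
  by_cases hi : i ∈ range (N + 1)
  · rw [if_pos hi]
  · rw [if_neg hi]
    rw [mem_range, not_lt] at hi
    rw [coeff_eq_zero_of_natDegree_lt (n := i) (lt_of_le_of_lt hN.1 (by omega)), coeff_zero]

private theorem l1_prod {ι : Type} (s : Finset ι) (f : ι → U4) (E : ℕ) (h : ∀ i ∈ s, L1 (f i) ≤ E) :
    L1 (∏ i ∈ s, f i) ≤ E ^ s.card := by
  classical
  induction s using Finset.induction_on with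
  | empty =>
    rw [prod_empty, card_empty, pow_zero]
    have : (1 : U4) = MvPolynomial.C 1 := by simp
    rw [this, L1_C]
    simp
  | insert a s ha ih =>
    rw [prod_insert ha, card_insert_of_notMem ha, pow_succ]
    refine (L1_mul _ _).trans ?_
    rw [mul_comm]
    exact Nat.mul_le_mul (ih fun i hi => h i (mem_insert_of_mem hi)) (h a (mem_insert_self a s))

/-- the determinant -/
private theorem det_size {ι : Type} [Fintype ι] [DecidableEq ι] {d S : ℕ}
    (M : Matrix ι ι U4) (hd : ∀ i j, (M i j).totalDegree ≤ d) (hL : ∀ i j, L1 (M i j) ≤ S) :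
    M.det.totalDegree ≤ Fintype.card ι * d ∧
      L1 M.det ≤ (Fintype.card ι).factorial * S ^ Fintype.card ι := by
  rw [Matrix.det_apply]
  constructor
  · refine (MvPolynomial.totalDegree_finsetSum _ _).trans (Finset.sup_le fun σ _ => ?_)
    have h1 : (Equiv.Perm.sign σ • ∏ i, M (σ i) i).totalDegree = (∏ i, M (σ i) i).totalDegree := by
      rcases Int.units_eq_one_or (Equiv.Perm.sign σ) with h | h
      · rw [h, one_smul]
      · rw [h]
        simp
    rw [h1]
    refine (MvPolynomial.totalDegree_finsetProd _ _).trans ((Finset.sum_le_sum fun i _ => hd (σ i) i).trans ?_)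
    simp
  · refine (L1_sum _ _).trans ?_
    have h1 : ∀ σ ∈ (univ : Finset (Equiv.Perm ι)), L1 (Equiv.Perm.sign σ • ∏ i, M (σ i) i) ≤
        S ^ Fintype.card ι := by
      intro σ _
      have h2 : L1 (Equiv.Perm.sign σ • ∏ i, M (σ i) i) = L1 (∏ i, M (σ i) i) := by
        rcases Int.units_eq_one_or (Equiv.Perm.sign σ) with h | h
        · rw [h, one_smul]
        · rw [h]
          simp [L1_neg]
      rw [h2]
      have h3 := l1_prod univ (fun i => M (σ i) i) S fun i _ => hL (σ i) i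
      simpa using h3
    refine (Finset.sum_le_sum h1).trans ?_
    rw [sum_const, smul_eq_mul, card_univ, Fintype.card_perm]

/-- from the size of `emb R` to degrees and coefficients -/
private theorem of_emb {R : ℤ[X][X]} {d S : ℕ} (hd : (emb R).totalDegree ≤ d) (hS : L1 (emb R) ≤ S) :
    BD d d R ∧ ∀ i j, |(R.coeff i).coeff j| ≤ (S : ℤ) := by
  have h1 : ∀ i j, (R.coeff i).coeff j ≠ 0 → i + j ≤ d := by
    intro i j hij
    rw [← emb_coeff] at hij
    have h2 := MvPolynomial.le_totalDegree (MvPolynomial.mem_support_iff.2 hij)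
    rw [Finsupp.sum_fintype _ _ (fun _ => rfl)] at h2
    simp [Fin.sum_univ_four] at h2
    omega
  refine ⟨⟨?_, fun i => ?_⟩, fun i j => ?_⟩
  · rw [natDegree_le_iff_coeff_eq_zero]
    intro i hi
    ext j
    rw [coeff_zero]
    by_contra hne
    have := h1 i j hne
    omega
  · rw [natDegree_le_iff_coeff_eq_zero]
    intro j hj
    by_contra hne
    have := h1 i j hne
    omega
  · have h2 := (coeff_le_L1 (emb R) (Finsupp.single 0 i + Finsupp.single 1 j)).trans hS
    rw [emb_coeff] at h2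
    rw [Int.abs_eq_natAbs]
    exact_mod_cast h2

/-! ## the matrix -/

/-- the scaled companion matrix -/
noncomputable def cmp (P : ℤ[X][X]) : Matrix (Fin P.natDegree) (Fin P.natDegree) ℤ[X] :=
  fun i l => if (i : ℕ) + 1 < P.natDegree then (if (l : ℕ) = i + 1 then P.leadingCoeff else 0)
    else - P.coeff l

theorem cmp_vec {P : ℤ[X][X]} {a x : ℤ} (h : evalEval a x P = 0) (i : Fin P.natDegree) :
    ∑ l, (cmp P i l).eval a * x ^ (l : ℕ) = P.leadingCoeff.eval a * x * x ^ (i : ℕ) := by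
  unfold cmp
  by_cases hi : (i : ℕ) + 1 < P.natDegree
  · simp only [if_pos hi]
    rw [Finset.sum_eq_single (⟨(i : ℕ) + 1, hi⟩ : Fin P.natDegree)]
    · simp only [if_true]
      ring
    · intro l _ hl
      rw [if_neg, eval_zero, zero_mul]
      intro hl'
      exact hl (Fin.ext hl')
    · intro h'
      exact absurd (mem_univ _) h'
  · simp only [if_neg hi]
    have hi' : (i : ℕ) + 1 = P.natDegree := by
      have := i.2
      omega
    have h1 : evalEval a x P = ∑ l ∈ range (P.natDegree + 1), (P.coeff l).eval a * x ^ l := by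
      rw [evalEval, eval_eq_sum_range (p := P), eval_finsetSum]
      refine sum_congr rfl fun l _ => ?_
      simp
    rw [h1, sum_range_succ, ← Fin.sum_univ_eq_sum_range (fun l => (P.coeff l).eval a * x ^ l)] at h
    have h2 : ∑ l : Fin P.natDegree, (-P.coeff l).eval a * x ^ (l : ℕ) =
        - ∑ l : Fin P.natDegree, (P.coeff l).eval a * x ^ (l : ℕ) := by
      rw [← Finset.sum_neg_distrib]
      refine sum_congr rfl fun l _ => ?_
      rw [eval_neg]
      ring
    rw [h2]
    have h3 : x * x ^ (i : ℕ) = x ^ P.natDegree :=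
      (pow_succ' x (i : ℕ)).symm.trans (congrArg (fun e => x ^ e) hi')
    rw [mul_assoc, h3]
    unfold leadingCoeff
    linarith

/-- the matrix of the multiplication by `c (α x + β y)` -/
noncomputable def smx (P Q : ℤ[X][X]) (α β : ℤ) :
    Matrix (Fin P.natDegree × Fin Q.natDegree) (Fin P.natDegree × Fin Q.natDegree) ℤ[X] :=
  fun u v => C α * (Q.leadingCoeff * cmp P u.1 v.1 * (if u.2 = v.2 then 1 else 0)) +
    C β * (P.leadingCoeff * cmp Q u.2 v.2 * (if u.1 = v.1 then 1 else 0))

theorem smx_vec {P Q : ℤ[X][X]} {α β a x y : ℤ} (hP : evalEval a x P = 0) (hQ : evalEval a y Q = 0)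
    (u : Fin P.natDegree × Fin Q.natDegree) :
    ∑ v, (smx P Q α β u v).eval a * (x ^ (v.1 : ℕ) * y ^ (v.2 : ℕ)) =
      (P.leadingCoeff.eval a * Q.leadingCoeff.eval a) * (α * x + β * y) *
        (x ^ (u.1 : ℕ) * y ^ (u.2 : ℕ)) := by
  have h1 := cmp_vec hP u.1
  have h2 := cmp_vec hQ u.2
  unfold smx
  simp only [eval_add, eval_mul, eval_C, add_mul, Finset.sum_add_distrib]
  have e1 : ∑ v : Fin P.natDegree × Fin Q.natDegree, α * (Q.leadingCoeff.eval a *
      (cmp P u.1 v.1).eval a * (if u.2 = v.2 then (1 : ℤ[X]) else 0).eval a) *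
      (x ^ (v.1 : ℕ) * y ^ (v.2 : ℕ)) =
      α * Q.leadingCoeff.eval a * y ^ (u.2 : ℕ) *
        ∑ l, (cmp P u.1 l).eval a * x ^ (l : ℕ) := by
    rw [Fintype.sum_prod_type, Finset.mul_sum]
    refine sum_congr rfl fun l _ => ?_
    rw [Finset.sum_eq_single u.2]
    · rw [if_pos rfl, eval_one]
      ring
    · intro j _ hj
      rw [if_neg (Ne.symm hj), eval_zero]
      ring
    · intro h
      exact absurd (mem_univ _) h
  have e2 : ∑ v : Fin P.natDegree × Fin Q.natDegree, β * (P.leadingCoeff.eval a *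
      (cmp Q u.2 v.2).eval a * (if u.1 = v.1 then (1 : ℤ[X]) else 0).eval a) *
      (x ^ (v.1 : ℕ) * y ^ (v.2 : ℕ)) =
      β * P.leadingCoeff.eval a * x ^ (u.1 : ℕ) *
        ∑ l, (cmp Q u.2 l).eval a * y ^ (l : ℕ) := by
    rw [Fintype.sum_prod_type, Finset.sum_eq_single u.1]
    · rw [Finset.mul_sum]
      refine sum_congr rfl fun l _ => ?_
      simp only [if_true, eval_one]
      ring
    · intro i _ hi
      refine sum_eq_zero fun j _ => ?_
      simp only [if_neg (Ne.symm hi), eval_zero]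
      ring
    · intro h
      exact absurd (mem_univ _) h
  rw [e1, e2, h1, h2]
  ring

/-- the polynomial -/
noncomputable def smp (P Q : ℤ[X][X]) (α β : ℤ) : ℤ[X][X] :=
  C (P.leadingCoeff * Q.leadingCoeff) * Matrix.det ((X : ℤ[X][X]) •
    ((P.leadingCoeff * Q.leadingCoeff) • (1 : Matrix (Fin P.natDegree × Fin Q.natDegree)
      (Fin P.natDegree × Fin Q.natDegree) ℤ[X])).map C + (-(smx P Q α β)).map C)

theorem smp_ne {P Q : ℤ[X][X]} (hP : P ≠ 0) (hQ : Q ≠ 0) (α β : ℤ) : smp P Q α β ≠ 0 := by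
  have hc : P.leadingCoeff * Q.leadingCoeff ≠ 0 :=
    mul_ne_zero (leadingCoeff_ne_zero.2 hP) (leadingCoeff_ne_zero.2 hQ)
  unfold smp
  refine mul_ne_zero (C_ne_zero.2 hc) ?_
  intro h0
  have h1 := coeff_det_X_add_C_card ((P.leadingCoeff * Q.leadingCoeff) •
    (1 : Matrix (Fin P.natDegree × Fin Q.natDegree) (Fin P.natDegree × Fin Q.natDegree) ℤ[X]))
    (-(smx P Q α β))
  rw [h0, coeff_zero, Matrix.det_smul, Matrix.det_one, mul_one] at h1
  exact pow_ne_zero _ hc h1.symm

theorem smp_zero {P Q : ℤ[X][X]} {α β a x y : ℤ} (hP0 : P ≠ 0) (hQ0 : Q ≠ 0)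
    (hP : evalEval a x P = 0) (hQ : evalEval a y Q = 0) :
    evalEval a (α * x + β * y) (smp P Q α β) = 0 := by
  have hmul : ∀ U V : ℤ[X][X], evalEval a (α * x + β * y) (U * V) =
      evalEval a (α * x + β * y) U * evalEval a (α * x + β * y) V := by
    intro U V
    simp [evalEval]
  unfold smp
  rw [hmul]
  by_cases hc : P.leadingCoeff.eval a * Q.leadingCoeff.eval a = 0
  · have h1 : evalEval a (α * x + β * y) (C (P.leadingCoeff * Q.leadingCoeff)) = 0 := by
      simp [evalEval, hc]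
    rw [h1, zero_mul]
  · -- both degrees are positive
    have hp : 0 < P.natDegree := by
      by_contra h
      have h0 : P.natDegree = 0 := by omega
      apply hc
      have h1 : P = C (P.coeff 0) := eq_C_of_natDegree_eq_zero h0
      have h2 : P.leadingCoeff = P.coeff 0 := by
        unfold leadingCoeff
        rw [h0]
      rw [h1] at hP
      simp only [evalEval, eval_C] at hP
      rw [h2, hP, zero_mul]
    have hq : 0 < Q.natDegree := by
      by_contra h
      have h0 : Q.natDegree = 0 := by omega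
      apply hc
      have h1 : Q = C (Q.coeff 0) := eq_C_of_natDegree_eq_zero h0
      have h2 : Q.leadingCoeff = Q.coeff 0 := by
        unfold leadingCoeff
        rw [h0]
      rw [h1] at hQ
      simp only [evalEval, eval_C] at hQ
      rw [h2, hQ, mul_zero]
    obtain ⟨z, hz⟩ : ∃ z, z = α * x + β * y := ⟨_, rfl⟩
    rw [← hz]
    obtain ⟨φ, hφ⟩ : ∃ φ : ℤ[X][X] →+* ℤ, φ = (evalRingHom a).comp (evalRingHom (C z)) := ⟨_, rfl⟩
    have hφe : ∀ U, evalEval a z U = φ U := by
      intro U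
      rw [hφ]
      rfl
    refine mul_eq_zero_of_right _ ?_
    rw [hφe, RingHom.map_det]
    obtain ⟨N, hN⟩ : ∃ N : Matrix (Fin P.natDegree × Fin Q.natDegree)
      (Fin P.natDegree × Fin Q.natDegree) ℤ, N = φ.mapMatrix ((X : ℤ[X][X]) •
        ((P.leadingCoeff * Q.leadingCoeff) • (1 : Matrix (Fin P.natDegree × Fin Q.natDegree)
        (Fin P.natDegree × Fin Q.natDegree) ℤ[X])).map C + (-(smx P Q α β)).map C) := ⟨_, rfl⟩
    rw [← hN]
    have hφX : φ X = z := by
      rw [hφ]
      simp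
    have hφC : ∀ p : ℤ[X], φ (C p) = p.eval a := by
      intro p
      rw [hφ]
      simp
    have hNe : ∀ u v, N u v = (if u = v then z * (P.leadingCoeff.eval a * Q.leadingCoeff.eval a)
        else 0) - (smx P Q α β u v).eval a := by
      intro u v
      rw [hN]
      simp only [RingHom.mapMatrix_apply, Matrix.map_apply, Matrix.add_apply, Matrix.smul_apply,
        Matrix.neg_apply, smul_eq_mul, map_add, map_mul, map_neg, hφX, hφC, Matrix.one_apply]
      by_cases huv : u = v
      · rw [if_pos huv, if_pos huv, eval_one]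
        ring
      · rw [if_neg huv, if_neg huv, eval_zero]
        ring
    by_contra hdet
    have hw := Matrix.eq_zero_of_mulVec_eq_zero hdet
      (v := fun v => x ^ (v.1 : ℕ) * y ^ (v.2 : ℕ)) (by
        funext u
        rw [Matrix.mulVec, dotProduct]
        simp only [hNe, sub_mul, Finset.sum_sub_distrib]
        rw [smx_vec hP hQ u, Finset.sum_eq_single u]
        · rw [if_pos rfl, ← hz, Pi.zero_apply]
          ring
        · intro v _ hv
          rw [if_neg (Ne.symm hv), zero_mul]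
        · intro h
          exact absurd (mem_univ _) h)
    have h0 := congrFun hw (⟨0, hp⟩, ⟨0, hq⟩)
    simp at h0

private theorem sum_num (D k : ℕ) : 2 * D ^ 3 + (4 * D + 3 * k + 2) * D ^ 2 + (4 * D + 2 * k) ≤
    (D + k + 4) ^ 4 := by
  have h : (D + k + 4) ^ 4 = (2 * D ^ 3 + (4 * D + 3 * k + 2) * D ^ 2 + (4 * D + 2 * k)) +
      (D ^ 4 + 10 * D ^ 3 + 4 * D ^ 3 * k + 94 * D ^ 2 + 45 * D ^ 2 * k + 6 * D ^ 2 * k ^ 2 +
        252 * D + 192 * D * k + 48 * D * k ^ 2 + 4 * D * k ^ 3 + 254 * k + 96 * k ^ 2 + 16 * k ^ 3 +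
        k ^ 4 + 256) := by ring
  rw [h]
  exact Nat.le_add_right _ _

theorem sum_pol {D k B : ℕ} (hB : 2 ≤ B) {P Q : ℤ[X][X]} (hP : P ≠ 0) (hQ : Q ≠ 0)
    (hPd : BD D D P) (hQd : BD D D Q) (hPc : ∀ i j, |(P.coeff i).coeff j| ≤ (B : ℤ) ^ k)
    (hQc : ∀ i j, |(Q.coeff i).coeff j| ≤ (B : ℤ) ^ k) {α β : ℤ} (hα : |α| ≤ (B : ℤ) ^ k)
    (hβ : |β| ≤ (B : ℤ) ^ k) :
    ∃ R : ℤ[X][X], R ≠ 0 ∧ BD (2 * (D + 1) ^ 3) (2 * (D + 1) ^ 3) R ∧
      (∀ i j, |(R.coeff i).coeff j| ≤ (B : ℤ) ^ ((D + k + 4) ^ 4)) ∧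
      ∀ a x y : ℤ, evalEval a x P = 0 → evalEval a y Q = 0 →
        evalEval a (α * x + β * y) R = 0 := by
  classical
  refine ⟨smp P Q α β, smp_ne hP hQ α β, ?_⟩
  have hmain : (emb (smp P Q α β)).totalDegree ≤ 2 * (D + 1) ^ 3 ∧
      L1 (emb (smp P Q α β)) ≤ B ^ ((D + k + 4) ^ 4) := by
    have hB1 : 1 ≤ B := by omega
    have hD2 : (D + 1) ^ 2 ≤ B ^ (2 * D) := by
      calc (D + 1) ^ 2 ≤ (2 ^ D) ^ 2 := Nat.pow_le_pow_left (Nat.lt_two_pow_self) _
        _ ≤ (B ^ D) ^ 2 := Nat.pow_le_pow_left (Nat.pow_le_pow_left hB _) _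
        _ = B ^ (2 * D) := by rw [← pow_mul]; congr 1; ring
    -- coefficients
    have hcs : ∀ {U : ℤ[X][X]}, BD D D U → (∀ i j, |(U.coeff i).coeff j| ≤ (B : ℤ) ^ k) → ∀ i,
        L1 (emb (C (U.coeff i))) ≤ B ^ (2 * D + k) ∧ (emb (C (U.coeff i))).totalDegree ≤ D := by
      intro U hU hc i
      have hBD : BD D 0 (C (U.coeff i) : ℤ[X][X]) := by
        refine ⟨by rw [natDegree_C], fun l => ?_⟩
        rw [coeff_C]
        split_ifs
        · exact hU.2 i
        · rw [natDegree_zero]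
          exact Nat.zero_le _
      have hBD' : BD D D (C (U.coeff i) : ℤ[X][X]) := ⟨hBD.1.trans (Nat.zero_le _), hBD.2⟩
      constructor
      · have h1 := l1_bd (k := k) (B := B) hBD' (by
          intro l j
          rw [coeff_C]
          split_ifs
          · exact hc i j
          · rw [coeff_zero, abs_zero]
            positivity)
        refine h1.trans ?_
        rw [pow_add]
        exact Nat.mul_le_mul_right _ hD2
      · simpa using emb_deg hBD
    have hlP := hcs hPd hPc P.natDegree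
    have hlQ := hcs hQd hQc Q.natDegree
    have hcmp : ∀ {U : ℤ[X][X]}, BD D D U → (∀ i j, |(U.coeff i).coeff j| ≤ (B : ℤ) ^ k) → ∀ i l,
        L1 (emb (C (cmp U i l))) ≤ B ^ (2 * D + k) ∧ (emb (C (cmp U i l))).totalDegree ≤ D := by
      intro U hU hc i l
      unfold cmp
      split_ifs
      · exact hcs hU hc U.natDegree
      · rw [C_0, map_zero, L1_zero, MvPolynomial.totalDegree_zero]
        exact ⟨Nat.zero_le _, Nat.zero_le _⟩
      · have h1 := hcs hU hc l
        rw [C_neg, map_neg, L1_neg, MvPolynomial.totalDegree_neg]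
        exact h1
    have hCC : ∀ c : ℤ, emb (C (C c)) = MvPolynomial.C c := emb_C_C
    have hle2 : ∀ {u v : ℤ[X]}, L1 (emb (C u)) ≤ B ^ (2 * D + k) →
        L1 (emb (C v)) ≤ B ^ (2 * D + k) → L1 (emb (C (u * v))) ≤ B ^ (4 * D + 2 * k) := by
      intro u v hu hv
      rw [C_mul, map_mul]
      refine (L1_mul _ _).trans ((Nat.mul_le_mul hu hv).trans (le_of_eq ?_))
      rw [← pow_add]
      congr 1
      ring
    have hde2 : ∀ {u v : ℤ[X]}, (emb (C u)).totalDegree ≤ D →
        (emb (C v)).totalDegree ≤ D → (emb (C (u * v))).totalDegree ≤ 2 * D := by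
      intro u v hu hv
      rw [C_mul, map_mul]
      have := MvPolynomial.totalDegree_mul (emb (C u)) (emb (C v))
      omega
    have hite : ∀ {u : ℤ[X]} {S d : ℕ} (q : Prop) [Decidable q], L1 (emb (C u)) ≤ S →
        (emb (C u)).totalDegree ≤ d → L1 (emb (C (u * (if q then 1 else 0)))) ≤ S ∧
        (emb (C (u * (if q then 1 else 0)))).totalDegree ≤ d := by
      intro u S d q _ h1 h2
      split_ifs
      · rw [mul_one]
        exact ⟨h1, h2⟩
      · rw [mul_zero, C_0, map_zero, L1_zero, MvPolynomial.totalDegree_zero]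
        exact ⟨Nat.zero_le _, Nat.zero_le _⟩
    have hsc : ∀ {u : ℤ[X]} {c : ℤ} {S d : ℕ}, |c| ≤ (B : ℤ) ^ k → L1 (emb (C u)) ≤ S →
        (emb (C u)).totalDegree ≤ d → L1 (emb (C (C c * u))) ≤ B ^ k * S ∧
        (emb (C (C c * u))).totalDegree ≤ d := by
      intro u c S d hc h1 h2
      rw [Int.abs_eq_natAbs] at hc
      have hc' : c.natAbs ≤ B ^ k := by exact_mod_cast hc
      rw [C_mul, map_mul, hCC]
      constructor
      · refine (L1_mul _ _).trans ?_
        rw [L1_C]
        exact Nat.mul_le_mul hc' h1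
      · have := MvPolynomial.totalDegree_mul (MvPolynomial.C c) (emb (C u))
        rw [MvPolynomial.totalDegree_C] at this
        omega
    have hsmx : ∀ u v, L1 (emb (C (smx P Q α β u v))) ≤
        B ^ k * B ^ (4 * D + 2 * k) + B ^ k * B ^ (4 * D + 2 * k) ∧
        (emb (C (smx P Q α β u v))).totalDegree ≤ 2 * D := by
      intro u v
      unfold smx
      have h1 := hcmp hPd hPc u.1 v.1
      have h2 := hcmp hQd hQc u.2 v.2
      have h3 := hsc hα (hite (u.2 = v.2) (hle2 hlQ.1 h1.1) (hde2 hlQ.2 h1.2)).1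
        (hite (u.2 = v.2) (hle2 hlQ.1 h1.1) (hde2 hlQ.2 h1.2)).2
      have h4 := hsc hβ (hite (u.1 = v.1) (hle2 hlP.1 h2.1) (hde2 hlP.2 h2.2)).1
        (hite (u.1 = v.1) (hle2 hlP.1 h2.1) (hde2 hlP.2 h2.2)).2
      rw [C_add, map_add]
      constructor
      · exact (L1_add _ _).trans (Nat.add_le_add h3.1 h4.1)
      · refine (MvPolynomial.totalDegree_add _ _).trans ?_
        exact max_le h3.2 h4.2
    have hlc : L1 (emb (C (P.leadingCoeff * Q.leadingCoeff))) ≤ B ^ (4 * D + 2 * k) :=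
      hle2 hlP.1 hlQ.1
    have hlcd : (emb (C (P.leadingCoeff * Q.leadingCoeff))).totalDegree ≤ 2 * D :=
      hde2 hlP.2 hlQ.2
    have hX1 : L1 (emb X) ≤ 1 := by
      have h1 := l1_mon 1 1 0
      simpa using h1
    have hX2 : (emb X).totalDegree ≤ 1 := by
      have h1 := emb_deg (D := 0) (e := 1) (P := (X : ℤ[X][X])) ⟨natDegree_X_le, fun i => by
        rw [coeff_X]
        split_ifs
        · rw [natDegree_one]
        · rw [natDegree_zero]⟩
      simpa using h1
    -- the entries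
    have hent : ∀ u v, L1 (emb (((X : ℤ[X][X]) • ((P.leadingCoeff * Q.leadingCoeff) •
        (1 : Matrix (Fin P.natDegree × Fin Q.natDegree)
        (Fin P.natDegree × Fin Q.natDegree) ℤ[X])).map C + (-(smx P Q α β)).map C) u v)) ≤
          B ^ (4 * D + 3 * k + 2) ∧
        (emb (((X : ℤ[X][X]) • ((P.leadingCoeff * Q.leadingCoeff) •
        (1 : Matrix (Fin P.natDegree × Fin Q.natDegree)
        (Fin P.natDegree × Fin Q.natDegree) ℤ[X])).map C + (-(smx P Q α β)).map C) u v)).totalDegree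
          ≤ 2 * D + 1 := by
      intro u v
      have e1 : ((X : ℤ[X][X]) • ((P.leadingCoeff * Q.leadingCoeff) •
        (1 : Matrix (Fin P.natDegree × Fin Q.natDegree)
        (Fin P.natDegree × Fin Q.natDegree) ℤ[X])).map C + (-(smx P Q α β)).map C) u v =
          X * C (P.leadingCoeff * Q.leadingCoeff * (if u = v then 1 else 0)) +
            -C (smx P Q α β u v) := by
        simp only [Matrix.map_apply, Matrix.add_apply, Matrix.smul_apply,
          Matrix.neg_apply, smul_eq_mul, Matrix.one_apply, C_neg]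
      rw [e1, map_add, map_mul, map_neg]
      have h1 := hsmx u v
      have h2 := hite (u = v) hlc hlcd
      constructor
      · refine (L1_add _ _).trans ?_
        rw [L1_neg]
        have h3 := L1_mul (emb X) (emb (C (P.leadingCoeff * Q.leadingCoeff *
          (if u = v then 1 else 0))))
        have h4 : L1 (emb X) * L1 (emb (C (P.leadingCoeff * Q.leadingCoeff *
          (if u = v then 1 else 0)))) ≤ 1 * B ^ (4 * D + 2 * k) := Nat.mul_le_mul hX1 h2.1
        have h5 : 1 * B ^ (4 * D + 2 * k) ≤ B ^ k * B ^ (4 * D + 2 * k) :=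
          Nat.mul_le_mul_right _ (Nat.one_le_pow _ _ hB1)
        have h6 : B ^ (4 * D + 3 * k + 2) = B ^ 2 * (B ^ k * B ^ (4 * D + 2 * k)) := by
          rw [← pow_add, ← pow_add]
          congr 1
          ring
        have h7 : 4 * (B ^ k * B ^ (4 * D + 2 * k)) ≤ B ^ 2 * (B ^ k * B ^ (4 * D + 2 * k)) :=
          Nat.mul_le_mul_right _ (Nat.pow_le_pow_left hB 2)
        have h8 := h1.1
        omega
      · refine (MvPolynomial.totalDegree_add _ _).trans (max_le ?_ ?_)
        · have h3 := MvPolynomial.totalDegree_mul (emb X) (emb (C (P.leadingCoeff *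
            Q.leadingCoeff * (if u = v then 1 else 0))))
          have h4 := h2.2
          omega
        · rw [MvPolynomial.totalDegree_neg]
          have h4 := h1.2
          omega
    have hN : Fintype.card (Fin P.natDegree × Fin Q.natDegree) ≤ D ^ 2 := by
      rw [Fintype.card_prod, Fintype.card_fin, Fintype.card_fin, sq]
      exact Nat.mul_le_mul hPd.1 hQd.1
    obtain ⟨N, hNd⟩ : ∃ N, N = Fintype.card (Fin P.natDegree × Fin Q.natDegree) := ⟨_, rfl⟩
    have hdet := det_size (emb.mapMatrix ((X : ℤ[X][X]) • ((P.leadingCoeff * Q.leadingCoeff) •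
        (1 : Matrix (Fin P.natDegree × Fin Q.natDegree)
        (Fin P.natDegree × Fin Q.natDegree) ℤ[X])).map C + (-(smx P Q α β)).map C))
      (d := 2 * D + 1) (S := B ^ (4 * D + 3 * k + 2))
      (fun u v => by rw [RingHom.mapMatrix_apply, Matrix.map_apply]; exact (hent u v).2)
      (fun u v => by rw [RingHom.mapMatrix_apply, Matrix.map_apply]; exact (hent u v).1)
    rw [← RingHom.map_det, ← hNd] at hdet
    rw [← hNd] at hN
    unfold smp
    rw [map_mul]
    constructor
    · have h1 := MvPolynomial.totalDegree_mul (emb (C (P.leadingCoeff * Q.leadingCoeff)))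
        (emb (Matrix.det ((X : ℤ[X][X]) • ((P.leadingCoeff * Q.leadingCoeff) •
        (1 : Matrix (Fin P.natDegree × Fin Q.natDegree)
        (Fin P.natDegree × Fin Q.natDegree) ℤ[X])).map C + (-(smx P Q α β)).map C)))
      have h2 : N * (2 * D + 1) ≤ D ^ 2 * (2 * D + 1) := Nat.mul_le_mul_right _ hN
      have h3 : 2 * D + D ^ 2 * (2 * D + 1) ≤ 2 * (D + 1) ^ 3 := by nlinarith
      have h4 := hdet.1
      omega
    · refine (L1_mul _ _).trans ((Nat.mul_le_mul hlc hdet.2).trans ?_)
      have h1 : N.factorial ≤ B ^ (2 * D ^ 3) := by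
        calc N.factorial ≤ N ^ N := Nat.factorial_le_pow _
          _ ≤ (D ^ 2) ^ N := Nat.pow_le_pow_left hN _
          _ ≤ (B ^ (2 * D)) ^ N := by
              refine Nat.pow_le_pow_left (le_trans ?_ hD2) _
              exact Nat.pow_le_pow_left (by omega) _
          _ ≤ (B ^ (2 * D)) ^ (D ^ 2) :=
              Nat.pow_le_pow_right (Nat.one_le_pow _ _ hB1) hN
          _ = B ^ (2 * D ^ 3) := by rw [← pow_mul]; congr 1; ring
      have h2 : (B ^ (4 * D + 3 * k + 2)) ^ N ≤ B ^ ((4 * D + 3 * k + 2) * D ^ 2) := by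
        rw [← pow_mul]
        exact Nat.pow_le_pow_right hB1 (Nat.mul_le_mul_left _ hN)
      calc B ^ (4 * D + 2 * k) * (N.factorial * (B ^ (4 * D + 3 * k + 2)) ^ N)
          ≤ B ^ (4 * D + 2 * k) * (B ^ (2 * D ^ 3) * B ^ ((4 * D + 3 * k + 2) * D ^ 2)) :=
            Nat.mul_le_mul_left _ (Nat.mul_le_mul h1 h2)
        _ = B ^ (2 * D ^ 3 + (4 * D + 3 * k + 2) * D ^ 2 + (4 * D + 2 * k)) := by
            rw [← pow_add, ← pow_add]
            congr 1
            ring
        _ ≤ B ^ ((D + k + 4) ^ 4) := Nat.pow_le_pow_right hB1 (sum_num D k)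
  obtain ⟨h1, h2⟩ := of_emb hmain.1 hmain.2
  refine ⟨h1, fun i j => ?_, fun a x y hx hy => smp_zero hP hQ hx hy⟩
  have := h2 i j
  push_cast at this
  exact this

end Pool.Agent.H4.XV
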